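import Pool.Agent.Helper21.MT9.Stmts

/-!
# T9, DEN: density for sets of matrices (after helper35's ABS)
-/

set_option autoImplicit false

namespace MT

/-- the density theorem: an irreducible set of matrices with scalar commutant generates all matrices -/
theorem set_dens (K : Type) [Field K] (n : ℕ) (hn : 1 ≤ n)
    (G : Set (Matrix (Fin n) (Fin n) K))
    (irr : ∀ W : Submodule K (Fin n → K), (∀ g ∈ G, ∀ v ∈ W,
      g.mulVec v ∈ W) → W = ⊥ ∨ W = ⊤)
    (hcomm : ∀ u : Matrix (Fin n) (Fin n) K, (∀ g ∈ G, g * u =
      u * g) → ∃ a : K, u = a • 1)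
    (P : Matrix (Fin n) (Fin n) K → Prop) (hG : ∀ g ∈ G, P g)
    (hsc : ∀ a : K, P (algebraMap K _ a)) (hadd : ∀ A B, P A → P B → P (A + B))
    (hmul : ∀ A B, P A → P B → P (A * B)) (A : Matrix (Fin n) (Fin n) K) : P A := by
  classical
  let V := Fin n → K
  let R : Subalgebra K (Module.End K V) := Algebra.adjoin K
    {T | ∃ g ∈ G, T = Matrix.toLin' g}
  have hgR : ∀ g ∈ G, Matrix.toLin' g ∈ R :=
    fun g hg => Algebra.subset_adjoin ⟨g, hg, rfl⟩
  have : Nonempty (Fin n) := ⟨⟨0, hn⟩⟩
  have : Nontrivial V := inferInstance
  have hsimp : IsSimpleModule R V := by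
    rw [isSimpleModule_iff]
    refine ⟨?_⟩
    intro W
    let W' : Submodule K V :=
      { carrier := W
        add_mem' := fun ha hb => W.add_mem ha hb
        zero_mem' := W.zero_mem
        smul_mem' := fun a x hx => by
          have := W.smul_mem (algebraMap K R a) hx
          exact this }
    rcases irr W' (by
      intro g hg v hv
      have := W.smul_mem (⟨_, hgR g hg⟩ : R) (show v ∈ W from hv)
      exact this) with h | h
    · left
      ext x
      have : x ∈ W' ↔ x ∈ (⊥ : Submodule K V) := by rw [h]
      exact this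
    · right
      ext x
      have : x ∈ W' ↔ x ∈ (⊤ : Submodule K V) := by rw [h]
      exact this
  have hscal : ∀ u : Module.End R V, ∃ a : K, ∀ x, u x = a • x := by
    intro u
    let u' : Module.End K V :=
      { toFun := u
        map_add' := u.map_add
        map_smul' := fun a x => u.map_smul (algebraMap K R a) x }
    obtain ⟨a, ha⟩ := hcomm (LinearMap.toMatrix' u') (by
      intro g hg
      apply (Matrix.toLin' (R := K)).injective
      rw [Matrix.toLin'_mul, Matrix.toLin'_mul, Matrix.toLin'_toMatrix']
      apply LinearMap.ext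
      intro x
      exact (u.map_smul (⟨_, hgR g hg⟩ : R) x).symm)
    refine ⟨a, fun x => ?_⟩
    have h2 : u' = a • 1 := by
      rw [← Matrix.toLin'_toMatrix' u', ha, map_smul, Matrix.toLin'_one]
      rfl
    exact congrArg (fun T : Module.End K V => T x) h2
  let T : Module.End K V := Matrix.toLin' A
  let f : Module.End (Module.End R V) V :=
    { toFun := T
      map_add' := T.map_add
      map_smul' := fun u x => by
        obtain ⟨a, ha⟩ := hscal u
        change T (u x) = u (T x)
        rw [ha, ha, map_smul] }
  obtain ⟨r, hr⟩ := jacobson_density (R := R) (M := V) f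
    (Finset.univ.image fun i : Fin n => (Pi.single i 1 : V))
  have hrT : (r : Module.End K V) = T := by
    apply LinearMap.pi_ext'
    intro i
    apply LinearMap.ext_ring
    have := hr (Pi.single i 1) (Finset.mem_image_of_mem _ (Finset.mem_univ i))
    exact this.symm
  have key : ∀ S ∈ R, P (LinearMap.toMatrix' S) := by
    intro S hS
    induction hS using Algebra.adjoin_induction with
    | mem x hx =>
      obtain ⟨g, hg, rfl⟩ := hx
      rw [LinearMap.toMatrix'_toLin']
      exact hG g hg
    | algebraMap a =>
      have : LinearMap.toMatrix' (algebraMap K (Module.End K V) a) =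
          algebraMap K (Matrix (Fin n) (Fin n) K) a := by
        rw [LinearMap.toMatrix'_algebraMap]
        rfl
      rw [this]
      exact hsc a
    | add x y _ _ hx hy =>
      rw [map_add]
      exact hadd _ _ hx hy
    | mul x y _ _ hx hy =>
      rw [LinearMap.toMatrix'_mul]
      exact hmul _ _ hx hy
  have := key T (hrT ▸ r.2)
  rwa [LinearMap.toMatrix'_toLin'] at this

theorem st_DEN : ST_DEN := by
  intro K C _ _ _ n G irr hcomm W hW
  classical
  rcases Nat.eq_zero_or_pos n with rfl | hn
  · left
    rw [eq_bot_iff]
    intro v _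
    rw [Subsingleton.elim v 0]
    exact Submodule.zero_mem _
  obtain ⟨m, rfl⟩ := Nat.exists_eq_succ_of_ne_zero hn.ne'
  have hall : ∀ A : Matrix (Fin (m + 1)) (Fin (m + 1)) K, ∀ v ∈ W,
      (A.map (algebraMap K C)).mulVec v ∈ W := by
    refine set_dens K (m + 1) hn G irr hcomm
      (fun A => ∀ v ∈ W, (A.map (algebraMap K C)).mulVec v ∈ W) hW ?_ ?_ ?_
    · intro a v hv
      have : (algebraMap K (Matrix (Fin (m + 1)) (Fin (m + 1)) K) a).map (algebraMap K C) =
          algebraMap C _ (algebraMap K C a) := by
        ext i j
        rw [Matrix.map_apply, Matrix.algebraMap_matrix_apply, Matrix.algebraMap_matrix_apply]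
        split_ifs
        · rfl
        · exact map_zero _
      rw [this, Algebra.algebraMap_eq_smul_one, Matrix.smul_mulVec, Matrix.one_mulVec]
      exact W.smul_mem _ hv
    · intro A B hA hB v hv
      have : (A + B).map (algebraMap K C) = A.map (algebraMap K C) + B.map (algebraMap K C) :=
        map_add (algebraMap K C).mapMatrix A B
      rw [this, Matrix.add_mulVec]
      exact W.add_mem (hA v hv) (hB v hv)
    · intro A B hA hB v hv
      have : (A * B).map (algebraMap K C) = A.map (algebraMap K C) * B.map (algebraMap K C) :=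
        map_mul (algebraMap K C).mapMatrix A B
      rw [this, ← Matrix.mulVec_mulVec]
      exact hA _ (hB v hv)
  by_cases hW0 : W = ⊥
  · exact Or.inl hW0
  right
  obtain ⟨v, hv, hv0⟩ := W.ne_bot_iff.1 hW0
  obtain ⟨j, hj⟩ : ∃ j, v j ≠ 0 := by
    by_contra hc
    push Not at hc
    exact hv0 (funext hc)
  have hsing : ∀ i, (Pi.single i 1 : Fin (m + 1) → C) ∈ W := by
    intro i
    have h2 := W.smul_mem (v j)⁻¹ (hall (Matrix.single i j 1) v hv)
    have h3 : (v j)⁻¹ • ((Matrix.single i j (1 : K)).map (algebraMap K C)).mulVec v =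
        Pi.single i 1 := by
      have h4 : (Matrix.single i j (1 : K)).map (algebraMap K C) = Matrix.single i j (1 : C) := by
        ext a b
        rw [Matrix.map_apply, Matrix.single_apply, Matrix.single_apply]
        split_ifs
        · exact map_one _
        · exact map_zero _
      rw [h4, Matrix.single_mulVec]
      ext a
      rw [Pi.smul_apply]
      by_cases ha : a = i
      · subst ha
        simp [hj]
      · simp [ha]
    rwa [h3] at h2
  rw [eq_top_iff]
  intro x _
  have : x = ∑ i, x i • (Pi.single i 1 : Fin (m + 1) → C) := by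
    ext a
    simp [Finset.sum_apply, Pi.single_apply]
  rw [this]
  exact W.sum_mem fun i _ => W.smul_mem _ (hsing i)

end MT
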