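import Pool.Agent.Helper14.MT9.GEN

/-!
# T9, END: the endgame
-/

set_option autoImplicit false

open Matrix

namespace MT

namespace End9

variable {K : Type} [Field K] {n : ℕ}

/-- the form `ψ(x, y)` -/
def bl (ψ : Matrix (Fin n) (Fin n) K) (x y : Fin n → K) : K := (ψ *ᵥ y) ⬝ᵥ x

theorem bl_add_left (ψ : Matrix (Fin n) (Fin n) K) (x x' y : Fin n → K) :
    bl ψ (x + x') y = bl ψ x y + bl ψ x' y := by
  unfold bl; rw [dotProduct_add]

theorem bl_add_right (ψ : Matrix (Fin n) (Fin n) K) (x y y' : Fin n → K) :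
    bl ψ x (y + y') = bl ψ x y + bl ψ x y' := by
  unfold bl; rw [mulVec_add, add_dotProduct]

theorem bl_smul_left (ψ : Matrix (Fin n) (Fin n) K) (c : K) (x y : Fin n → K) :
    bl ψ (c • x) y = c * bl ψ x y := by
  unfold bl; rw [dotProduct_smul, smul_eq_mul]

theorem bl_smul_right (ψ : Matrix (Fin n) (Fin n) K) (c : K) (x y : Fin n → K) :
    bl ψ x (c • y) = c * bl ψ x y := by
  unfold bl; rw [mulVec_smul, smul_dotProduct, smul_eq_mul]

theorem bl_sub_left (ψ : Matrix (Fin n) (Fin n) K) (x x' y : Fin n → K) :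
    bl ψ (x - x') y = bl ψ x y - bl ψ x' y := by
  unfold bl; rw [dotProduct_sub]

theorem bl_zero_left (ψ : Matrix (Fin n) (Fin n) K) (y : Fin n → K) : bl ψ 0 y = 0 := by
  unfold bl; rw [dotProduct_zero]

theorem bl_zero_right (ψ : Matrix (Fin n) (Fin n) K) (x : Fin n → K) : bl ψ x 0 = 0 := by
  unfold bl; rw [mulVec_zero, zero_dotProduct]

theorem bl_swap {ψ : Matrix (Fin n) (Fin n) K} {ε : K} (hs : ψ.transpose = ε • ψ)
    (x y : Fin n → K) : bl ψ x y = ε * bl ψ y x := Gen9.dot_swap hs x y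

theorem bl_skew {ψ A : Matrix (Fin n) (Fin n) K} (h : A.transpose * ψ + ψ * A = 0)
    (x y : Fin n → K) : bl ψ (A *ᵥ x) y = -bl ψ x (A *ᵥ y) := by
  have h1 : A.transpose * ψ = -(ψ * A) := eq_neg_of_add_eq_zero_left h
  unfold bl
  rw [dotProduct_mulVec, ← mulVec_transpose, mulVec_mulVec, h1, neg_mulVec, neg_dotProduct,
    mulVec_mulVec]

theorem vmv_mulVec (x w v : Fin n → K) : vecMulVec x w *ᵥ v = (w ⬝ᵥ v) • x := by
  ext i
  simp only [mulVec, dotProduct, vecMulVec_apply, Pi.smul_apply, smul_eq_mul, Finset.sum_mul]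
  exact Finset.sum_congr rfl fun j _ => by ring

theorem LL_mulVec (ψ : Matrix (Fin n) (Fin n) K) (ε : K) (x y v : Fin n → K) :
    LL ψ ε x y *ᵥ v = bl ψ v y • x - (ε * bl ψ v x) • y := by
  unfold LL bl
  rw [sub_mulVec, smul_mulVec, vmv_mulVec, vmv_mulVec, smul_smul]

theorem LL_comm {ψ A : Matrix (Fin n) (Fin n) K} (ε : K) (h : A.transpose * ψ + ψ * A = 0)
    (x y : Fin n → K) :
    A * LL ψ ε x y - LL ψ ε x y * A = LL ψ ε (A *ᵥ x) y + LL ψ ε x (A *ᵥ y) := by
  have h1 : A.transpose * ψ = -(ψ * A) := eq_neg_of_add_eq_zero_left h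
  have h2 : ∀ z : Fin n → K, (ψ *ᵥ z) ᵥ* A = -(ψ *ᵥ (A *ᵥ z)) := by
    intro z
    rw [← mulVec_transpose, mulVec_mulVec, h1, neg_mulVec, mulVec_mulVec]
  unfold LL
  rw [mul_sub, sub_mul, mul_smul_comm, smul_mul_assoc, mul_vecMulVec, mul_vecMulVec,
    vecMulVec_mul, vecMulVec_mul, h2, h2, vecMulVec_neg, vecMulVec_neg, smul_neg]
  abel

/-- vectors with support in `p` -/
def SS (K : Type) [Field K] {n : ℕ} (p : Fin n → Prop) : Submodule K (Fin n → K) where
  carrier := {x | ∀ j, x j ≠ 0 → p j}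
  zero_mem' := fun _ hj => absurd rfl hj
  add_mem' := by
    intro x y hx hy j hj
    by_cases h0 : x j = 0
    · apply hy j
      intro h1
      apply hj
      rw [Pi.add_apply, h0, h1, add_zero]
    · exact hx j h0
  smul_mem' := by
    intro c x hx j hj
    apply hx j
    intro h0
    apply hj
    rw [Pi.smul_apply, h0, smul_zero]

/-- restriction to `p` -/
def pr (K : Type) [Field K] {n : ℕ} (p : Fin n → Prop) [DecidablePred p] :
    (Fin n → K) →ₗ[K] (Fin n → K) where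
  toFun := fun v j => if p j then v j else 0
  map_add' := by
    intro v w
    ext j
    by_cases h : p j <;> simp [h]
  map_smul' := by
    intro c v
    ext j
    by_cases h : p j <;> simp [h]

theorem pr_apply (p : Fin n → Prop) [DecidablePred p] (v : Fin n → K) (j : Fin n) :
    pr K p v j = if p j then v j else 0 := rfl

theorem pr_mem (p : Fin n → Prop) [DecidablePred p] (v : Fin n → K) : pr K p v ∈ SS K p := by
  intro j hj
  rw [pr_apply] at hj
  by_contra h
  rw [if_neg h] at hj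
  exact hj rfl

theorem pr_self (p : Fin n → Prop) [DecidablePred p] {v : Fin n → K} (hv : v ∈ SS K p) :
    pr K p v = v := by
  ext j
  rw [pr_apply]
  by_cases h : p j
  · rw [if_pos h]
  · rw [if_neg h]
    by_contra h0
    exact h (hv j (Ne.symm h0))

theorem pr_zero (p q : Fin n → Prop) [DecidablePred p] (hpq : ∀ j, q j → ¬ p j) {v : Fin n → K}
    (hv : v ∈ SS K q) : pr K p v = 0 := by
  ext j
  rw [pr_apply, Pi.zero_apply]
  by_cases h : p j
  · rw [if_pos h]
    by_contra h0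
    exact hpq j (hv j h0) h
  · rw [if_neg h]

theorem orth (ψ : Matrix (Fin n) (Fin n) K) (p q : Fin n → Prop)
    (h : ∀ i j, p i → q j → ψ i j = 0) {x y : Fin n → K} (hx : x ∈ SS K p) (hy : y ∈ SS K q) :
    bl ψ x y = 0 := by
  unfold bl dotProduct
  refine Finset.sum_eq_zero fun i _ => ?_
  by_cases hi : x i = 0
  · rw [hi, mul_zero]
  · have : (ψ *ᵥ y) i = 0 := by
      unfold mulVec dotProduct
      refine Finset.sum_eq_zero fun j _ => ?_
      by_cases hj : y j = 0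
      · rw [hj, mul_zero]
      · change ψ i j * y j = 0
        rw [h i j (hx i hi) (hy j hj), zero_mul]
    rw [this, zero_mul]

theorem bl_single (ψ : Matrix (Fin n) (Fin n) K) (i : Fin n) (y : Fin n → K) :
    bl ψ (Pi.single i 1) y = (ψ *ᵥ y) i := by
  unfold bl
  rw [dotProduct_single_one]

/-- non-degeneracy, with the degrees -/
theorem nd {ε : K} {ψ : Matrix (Fin n) (Fin n) K} {d : Fin n → ℤ} {N : ℤ}
    {a : Submodule K (Matrix (Fin n) (Fin n) K)} (hT : TopD ε ψ d N a) {y : Fin n → K}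
    (hy : y ≠ 0) : ∃ i j, bl ψ (Pi.single i 1) y ≠ 0 ∧ y j ≠ 0 ∧ d i + d j = 0 := by
  have h1 : ψ *ᵥ y ≠ 0 := by
    intro h0
    have hu : IsUnit ψ.det := isUnit_iff_ne_zero.mpr hT.unit
    apply hy
    have := congrArg (fun v => ψ⁻¹ *ᵥ v) h0
    simpa only [mulVec_mulVec, nonsing_inv_mul _ hu, one_mulVec, mulVec_zero] using this
  obtain ⟨i, hi⟩ : ∃ i, (ψ *ᵥ y) i ≠ 0 := by
    by_contra hc
    push Not at hc
    exact h1 (funext hc)
  have h2 := hi
  unfold mulVec dotProduct at h2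
  obtain ⟨j, -, hj⟩ := Finset.exists_ne_zero_of_sum_ne_zero h2
  exact ⟨i, j, by rw [bl_single]; exact hi, right_ne_zero_of_mul hj,
    hT.grad i j (left_ne_zero_of_mul hj)⟩

theorem single_mem (p : Fin n → Prop) {i : Fin n} (hi : p i) : (Pi.single i 1 : Fin n → K) ∈ SS K p := by
  intro k hk
  have : k = i := by
    by_contra hki
    exact hk (Pi.single_eq_of_ne hki 1)
  rw [this]
  exact hi

section top

variable {ε : K} {ψ : Matrix (Fin n) (Fin n) K} {d : Fin n → ℤ} {N : ℤ}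
  {a : Submodule K (Matrix (Fin n) (Fin n) K)}

/-- two indices of each of the degrees `N`, `-N` -/
theorem two_idx (hT : TopD ε ψ d N a) (c : ℤ) (hc : c = N ∨ c = -N) :
    ∃ i j, i ≠ j ∧ d i = c ∧ d j = c := by
  classical
  obtain ⟨i1, h1, i2, h2, h12⟩ := Finset.one_lt_card.mp (show 1 < (Finset.univ.filter
    fun j => d j = N).card from hT.top)
  rw [Finset.mem_filter] at h1 h2
  rcases hc with rfl | rfl
  · exact ⟨i1, i2, h12, h1.2, h2.2⟩
  · -- rows of degree `-N`
    obtain ⟨j0, k0, e0, e01, e1⟩ := nd hT (y := Pi.single i1 1) (by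
      intro h
      have := congrFun h i1
      rw [Pi.single_eq_same, Pi.zero_apply] at this
      exact one_ne_zero this)
    have hk0 : k0 = i1 := by
      by_contra hk
      exact e01 (Pi.single_eq_of_ne hk 1)
    subst hk0
    have dj0 : d j0 = -N := by omega
    rw [bl_single, mulVec_single_one] at e0
    let x : Fin n → K := ψ j0 i2 • Pi.single k0 1 - ψ j0 k0 • Pi.single i2 1
    have hx : x ≠ 0 := by
      intro h
      have := congrFun h i2
      simp only [x, Pi.sub_apply, Pi.smul_apply, Pi.single_eq_same, Pi.single_eq_of_ne h12.symm,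
        smul_eq_mul, mul_zero, mul_one, zero_sub, Pi.zero_apply, neg_eq_zero] at this
      exact e0 this
    obtain ⟨j1, k1, f0, f1, f2⟩ := nd hT hx
    have hk1 : d k1 = N := by
      by_contra hk
      apply f1
      have g1 : k1 ≠ k0 := by rintro rfl; exact hk h1.2
      have g2 : k1 ≠ i2 := by rintro rfl; exact hk h2.2
      simp only [x, Pi.sub_apply, Pi.smul_apply, Pi.single_eq_of_ne g1, Pi.single_eq_of_ne g2,
        smul_zero, sub_zero]
    refine ⟨j0, j1, ?_, dj0, by omega⟩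
    rintro rfl
    apply f0
    rw [bl_single]
    simp only [x, mulVec_sub, mulVec_smul, mulVec_single_one, Pi.sub_apply, Pi.smul_apply,
      smul_eq_mul]
    simp only [col_apply]
    ring

/-- the inner vectors `ρ` with `L(x, ρ) ∈ a` for all `x` of degree `c` -/
def RR (ψ : Matrix (Fin n) (Fin n) K) (ε : K) (d : Fin n → ℤ) (N : ℤ)
    (a : Submodule K (Matrix (Fin n) (Fin n) K)) (c : ℤ) : Submodule K (Fin n → K) where
  carrier := {ρ | ρ ∈ SS K (fun j => |d j| < N) ∧ ∀ x ∈ SS K (fun j => d j = c), LL ψ ε x ρ ∈ a}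
  zero_mem' := by
    refine ⟨Submodule.zero_mem _, fun x _ => ?_⟩
    have : LL ψ ε x 0 = 0 := by
      unfold LL
      rw [mulVec_zero, vecMulVec_zero, zero_vecMulVec, smul_zero, sub_zero]
    rw [this]
    exact a.zero_mem
  add_mem' := by
    rintro u v ⟨hu1, hu2⟩ ⟨hv1, hv2⟩
    refine ⟨Submodule.add_mem _ hu1 hv1, fun x hx => ?_⟩
    rw [Gen9.LL_add_right]
    exact a.add_mem (hu2 x hx) (hv2 x hx)
  smul_mem' := by
    rintro t u ⟨hu1, hu2⟩
    refine ⟨Submodule.smul_mem _ t hu1, fun x hx => ?_⟩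
    have : LL ψ ε x (t • u) = t • LL ψ ε x u := by
      unfold LL
      rw [mulVec_smul, vecMulVec_smul, smul_vecMulVec, smul_sub, smul_comm]
    rw [this]
    exact a.smul_mem t (hu2 x hx)

theorem inn_eq (d : Fin n → ℤ) (N : ℤ) (v : Fin n → K) : inn d N v = pr K (fun j => |d j| < N) v := rfl

/-- orthogonality of the pieces -/
theorem o_top_inn (hT : TopD ε ψ d N a) {c : ℤ} (hc : c = N ∨ c = -N) {x r : Fin n → K}
    (hx : x ∈ SS K (fun j => d j = c)) (hr : r ∈ SS K (fun j => |d j| < N)) :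
    bl ψ x r = 0 ∧ bl ψ r x = 0 := by
  constructor
  · refine orth ψ _ _ ?_ hx hr
    intro i j hi hj
    by_contra h0
    have := hT.grad i j h0
    rw [abs_lt] at hj
    omega
  · refine orth ψ _ _ ?_ hr hx
    intro i j hi hj
    by_contra h0
    have := hT.grad i j h0
    rw [abs_lt] at hi
    omega

theorem o_top (hT : TopD ε ψ d N a) {c : ℤ} (hc : c = N ∨ c = -N) {x y : Fin n → K}
    (hx : x ∈ SS K (fun j => d j = c)) (hy : y ∈ SS K (fun j => d j = c)) : bl ψ x y = 0 := by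
  refine orth ψ _ _ ?_ hx hy
  intro i j hi hj
  by_contra h0
  have := hT.grad i j h0
  have := hT.pos
  omega

/-- decomposition -/
theorem dec (hT : TopD ε ψ d N a) {c : ℤ} (hc : c = N ∨ c = -N) (v : Fin n → K) :
    v = pr K (fun j => d j = c) v + pr K (fun j => d j = -c) v + inn d N v := by
  ext j
  rw [Pi.add_apply, Pi.add_apply, pr_apply, pr_apply, inn_eq, pr_apply]
  have h1 := hT.bd j
  have h2 := hT.pos
  by_cases h3 : |d j| < N
  · have h4 := abs_lt.mp h3
    rw [if_pos h3, if_neg (by omega), if_neg (by omega)]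
    ring
  · have h5 : |d j| = N := by omega
    have h6 : d j = N ∨ d j = -N := by
      rcases abs_choice (d j) with h7 | h7
      · left; omega
      · right; omega
    rw [if_neg h3]
    by_cases h7 : d j = c
    · rw [if_pos h7, if_neg (by omega)]; ring
    · rw [if_neg h7, if_pos (by omega)]; ring

theorem inn_top (hT : TopD ε ψ d N a) {c : ℤ} (hc : c = N ∨ c = -N) {x : Fin n → K}
    (hx : x ∈ SS K (fun j => d j = c)) : inn d N x = 0 := by
  rw [inn_eq]
  refine pr_zero _ _ ?_ hx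
  intro j hj hj2
  have := hT.pos
  rw [abs_lt] at hj2
  omega

theorem inn_self {r : Fin n → K} (hr : r ∈ SS K (fun j => |d j| < N)) : inn d N r = r := by
  rw [inn_eq]
  exact pr_self _ hr

theorem inn_mem (v : Fin n → K) : inn d N v ∈ SS K (fun j => |d j| < N) := by
  rw [inn_eq]
  exact pr_mem _ v

theorem inn_add (u v : Fin n → K) : inn d N (u + v) = inn d N u + inn d N v := by
  rw [inn_eq, inn_eq, inn_eq, map_add]

theorem inn_smul (t : K) (v : Fin n → K) : inn d N (t • v) = t • inn d N v := by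
  rw [inn_eq, inn_eq, map_smul]

theorem inn_sub (u v : Fin n → K) : inn d N (u - v) = inn d N u - inn d N v := by
  rw [inn_eq, inn_eq, inn_eq, map_sub]

/-- the pairing of the pieces `c` and `-c` -/
theorem ex_pair (hT : TopD ε ψ d N a) {c : ℤ} {y : Fin n → K}
    (hy : y ∈ SS K (fun j => d j = -c)) (hy0 : y ≠ 0) : ∃ x ∈ SS K (fun j => d j = c), bl ψ x y ≠ 0 := by
  obtain ⟨i, j, h1, h2, h3⟩ := nd hT hy0
  refine ⟨Pi.single i 1, single_mem _ ?_, h1⟩
  have := hy j h2
  change d j = -c at this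
  omega

theorem ex_pair_inn (hT : TopD ε ψ d N a) {y : Fin n → K}
    (hy : y ∈ SS K (fun j => |d j| < N)) (hy0 : y ≠ 0) :
    ∃ x ∈ SS K (fun j => |d j| < N), bl ψ x y ≠ 0 := by
  obtain ⟨i, j, h1, h2, h3⟩ := nd hT hy0
  refine ⟨Pi.single i 1, single_mem _ ?_, h1⟩
  have h4 := hy j h2
  change |d j| < N at h4
  have h5 : d i = -d j := by omega
  rw [h5, abs_neg]
  exact h4

theorem single_ne (i : Fin n) : (Pi.single i 1 : Fin n → K) ≠ 0 := by
  intro h
  have := congrFun h i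
  rw [Pi.single_eq_same, Pi.zero_apply] at this
  exact one_ne_zero this

theorem ne_top (hT : TopD ε ψ d N a) {c : ℤ} (hc : c = N ∨ c = -N) :
    ∃ x ∈ SS K (fun j => d j = c), x ≠ 0 := by
  obtain ⟨i, -, -, hi, -⟩ := two_idx hT c hc
  exact ⟨Pi.single i 1, single_mem _ hi, single_ne i⟩

/-- a non-zero vector orthogonal to a given one -/
theorem ex_orth (hT : TopD ε ψ d N a) {c : ℤ} (hc : c = N ∨ c = -N) (x : Fin n → K) :
    ∃ y ∈ SS K (fun j => d j = -c), y ≠ 0 ∧ bl ψ y x = 0 := by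
  obtain ⟨i, j, hij, hi, hj⟩ := two_idx hT (-c) (by omega)
  by_cases h0 : bl ψ (Pi.single i 1) x = 0
  · exact ⟨Pi.single i 1, single_mem _ hi, single_ne i, h0⟩
  · refine ⟨bl ψ (Pi.single j 1) x • Pi.single i 1 - bl ψ (Pi.single i 1) x • Pi.single j 1,
      Submodule.sub_mem _ (Submodule.smul_mem _ _ (single_mem _ hi))
        (Submodule.smul_mem _ _ (single_mem _ hj)), ?_, ?_⟩
    · intro h
      have := congrFun h j
      simp only [Pi.sub_apply, Pi.smul_apply, Pi.single_eq_same, Pi.single_eq_of_ne hij.symm,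
        smul_eq_mul, mul_zero, mul_one, zero_sub, Pi.zero_apply, neg_eq_zero] at this
      exact h0 this
    · rw [bl_sub_left, bl_smul_left, bl_smul_left]
      ring

/-- (1) -/
theorem step1 (hT : TopD ε ψ d N a) {c : ℤ} (hc : c = N ∨ c = -N)
    (hp : ∀ A ∈ a, ∀ x y : Fin n → K, x ∈ SS K (fun j => d j = c) → y ∈ SS K (fun j => d j = -c) →
      LL ψ ε x (inn d N (A *ᵥ y)) ∈ a) {ρ : Fin n → K} (hρ : ρ ∈ RR ψ ε d N a c)
    {A : Matrix (Fin n) (Fin n) K} (hA : A ∈ a) : inn d N (A *ᵥ ρ) ∈ RR ψ ε d N a c := by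
  have hε0 : ε ≠ 0 := by
    rcases hT.sign with h | h <;> rw [h]
    · exact one_ne_zero
    · exact neg_ne_zero.mpr one_ne_zero
  obtain ⟨x, hx, hx0⟩ := ne_top hT hc
  obtain ⟨y, hy, hxy⟩ := ex_pair hT (c := -c) (by rwa [neg_neg]) hx0
  have hC : A * LL ψ ε x ρ - LL ψ ε x ρ * A ∈ a := hT.brk A hA _ (hρ.2 x hx)
  rw [LL_comm ε (hT.iso A hA)] at hC
  set C := LL ψ ε (A *ᵥ x) ρ + LL ψ ε x (A *ᵥ ρ) with hCd
  have hCR : inn d N (C *ᵥ y) ∈ RR ψ ε d N a c :=
    ⟨inn_mem _, fun x' hx' => hp C hC x' y hx' hy⟩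
  have h1 : bl ψ y ρ = 0 := (o_top_inn hT (c := -c) (by omega) hy hρ.1).1
  have e : inn d N (C *ᵥ y) = -((ε * bl ψ y (A *ᵥ x)) • ρ) - (ε * bl ψ y x) • inn d N (A *ᵥ ρ) := by
    rw [hCd, add_mulVec, LL_mulVec, LL_mulVec, h1, zero_smul, zero_sub, inn_add, inn_sub,
      inn_smul, inn_smul, inn_top hT hc hx, smul_zero, zero_sub]
    have : inn d N (-((ε * bl ψ y (A *ᵥ x)) • ρ)) = -((ε * bl ψ y (A *ᵥ x)) • ρ) :=
      inn_self (Submodule.neg_mem _ (Submodule.smul_mem _ _ hρ.1))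
    rw [this]
    abel
  rw [e] at hCR
  have h2 : (ε * bl ψ y x) • inn d N (A *ᵥ ρ) ∈ RR ψ ε d N a c := by
    have h3 := Submodule.sub_mem _
      (Submodule.neg_mem _ (Submodule.smul_mem _ (ε * bl ψ y (A *ᵥ x)) hρ)) hCR
    have h4 : -((ε * bl ψ y (A *ᵥ x)) • ρ) - (-((ε * bl ψ y (A *ᵥ x)) • ρ) -
      (ε * bl ψ y x) • inn d N (A *ᵥ ρ)) = (ε * bl ψ y x) • inn d N (A *ᵥ ρ) := by abel
    rwa [h4] at h3
  exact (Submodule.smul_mem_iff _ (mul_ne_zero hε0 hxy)).mp h2

/-- (2) -/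
theorem step2 (hT : TopD ε ψ d N a) {c : ℤ} (hc : c = N ∨ c = -N)
    (hp : ∀ A ∈ a, ∀ x y : Fin n → K, x ∈ SS K (fun j => d j = c) → y ∈ SS K (fun j => d j = -c) →
      LL ψ ε x (inn d N (A *ᵥ y)) ∈ a)
    (hm : ∀ A ∈ a, ∀ x y : Fin n → K, x ∈ SS K (fun j => d j = -c) → y ∈ SS K (fun j => d j = c) →
      LL ψ ε x (inn d N (A *ᵥ y)) ∈ a) {r : Fin n → K} (hr : r ∈ SS K (fun j => |d j| < N)) :
    r ∈ RR ψ ε d N a c ⊔ RR ψ ε d N a (-c) := by
  have hm' : ∀ A ∈ a, ∀ x y : Fin n → K, x ∈ SS K (fun j => d j = -c) →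
      y ∈ SS K (fun j => d j = -(-c)) → LL ψ ε x (inn d N (A *ᵥ y)) ∈ a := by
    rw [neg_neg]
    exact hm
  let I : (Fin n → K) →ₗ[K] (Fin n → K) := pr K (fun j => |d j| < N)
  have hst : ∀ A ∈ a, ∀ v ∈ (RR ψ ε d N a c ⊔ RR ψ ε d N a (-c)).comap I,
      A *ᵥ v ∈ (RR ψ ε d N a c ⊔ RR ψ ε d N a (-c)).comap I := by
    intro A hA v hv
    rw [Submodule.mem_comap] at hv ⊢
    change inn d N v ∈ _ at hv
    change inn d N (A *ᵥ v) ∈ _
    rw [dec hT hc v, mulVec_add, mulVec_add, inn_add, inn_add]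
    refine Submodule.add_mem _ (Submodule.add_mem _ ?_ ?_) ?_
    · exact Submodule.mem_sup_right ⟨inn_mem _, fun x hx => hm A hA x _ hx (pr_mem _ v)⟩
    · exact Submodule.mem_sup_left ⟨inn_mem _, fun x hx => hp A hA x _ hx (pr_mem _ v)⟩
    · obtain ⟨u, hu, w, hw, huw⟩ := Submodule.mem_sup.mp hv
      rw [← huw, mulVec_add, inn_add]
      exact Submodule.add_mem _ (Submodule.mem_sup_left (step1 hT hc hp hu hA))
        (Submodule.mem_sup_right (step1 hT (by omega) hm' hw hA))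
  rcases hT.irr _ hst with h | h
  · exfalso
    obtain ⟨x, hx, hx0⟩ := ne_top hT hc
    apply hx0
    have : x ∈ (RR ψ ε d N a c ⊔ RR ψ ε d N a (-c)).comap I := by
      rw [Submodule.mem_comap]
      change inn d N x ∈ _
      rw [inn_top hT hc hx]
      exact Submodule.zero_mem _
    rw [h] at this
    exact (Submodule.mem_bot K).mp this
  · have : r ∈ (RR ψ ε d N a c ⊔ RR ψ ε d N a (-c)).comap I := by rw [h]; exact Submodule.mem_top
    rw [Submodule.mem_comap] at this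
    change inn d N r ∈ _ at this
    rwa [inn_self hr] at this

/-- (3) -/
theorem step3 (hT : TopD ε ψ d N a) {c : ℤ} (hc : c = N ∨ c = -N)
    (hp : ∀ A ∈ a, ∀ x y : Fin n → K, x ∈ SS K (fun j => d j = c) → y ∈ SS K (fun j => d j = -c) →
      LL ψ ε x (inn d N (A *ᵥ y)) ∈ a)
    (hm : ∀ A ∈ a, ∀ x y : Fin n → K, x ∈ SS K (fun j => d j = -c) → y ∈ SS K (fun j => d j = c) →
      LL ψ ε x (inn d N (A *ᵥ y)) ∈ a) :
    ∃ r ∈ RR ψ ε d N a (-c), ∃ r' ∈ RR ψ ε d N a (-c), bl ψ r r' ≠ 0 := by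
  classical
  have hε0 : ε ≠ 0 := by
    rcases hT.sign with h | h <;> rw [h]
    · exact one_ne_zero
    · exact neg_ne_zero.mpr one_ne_zero
  have hm' : ∀ A ∈ a, ∀ x y : Fin n → K, x ∈ SS K (fun j => d j = -c) →
      y ∈ SS K (fun j => d j = -(-c)) → LL ψ ε x (inn d N (A *ᵥ y)) ∈ a := by
    rw [neg_neg]
    exact hm
  by_contra hcon
  push Not at hcon
  obtain ⟨j1, hj1⟩ := hT.inner
  -- no component of degree `-2 c`
  have hB : ∀ A ∈ a, ∀ x ∈ SS K (fun j => d j = c), pr K (fun j => d j = -c) (A *ᵥ x) = 0 := by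
    intro A hA x hx
    by_contra hne
    have hBa : cmp d (-2 * c) A ∈ a := hT.comp A hA _
    have hBx : cmp d (-2 * c) A *ᵥ x = pr K (fun j => d j = -c) (A *ᵥ x) := by
      ext i
      rw [pr_apply]
      by_cases hi : d i = -c
      · rw [if_pos hi]
        unfold mulVec dotProduct
        refine Finset.sum_congr rfl fun j _ => ?_
        change cmp d (-2 * c) A i j * x j = A i j * x j
        by_cases hj : x j = 0
        · rw [hj, mul_zero, mul_zero]
        · have := hx j hj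
          change d j = c at this
          simp only [cmp, of_apply]
          rw [if_pos (by omega)]
      · rw [if_neg hi]
        unfold mulVec dotProduct
        refine Finset.sum_eq_zero fun j _ => ?_
        change cmp d (-2 * c) A i j * x j = 0
        by_cases hj : x j = 0
        · rw [hj, mul_zero]
        · have := hx j hj
          change d j = c at this
          simp only [cmp, of_apply]
          rw [if_neg (by omega), zero_mul]
    have hBr : ∀ r ∈ SS K (fun j => |d j| < N), cmp d (-2 * c) A *ᵥ r = 0 := by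
      intro r hr
      ext i
      unfold mulVec dotProduct
      refine Finset.sum_eq_zero fun j _ => ?_
      change cmp d (-2 * c) A i j * r j = 0
      by_cases hj : r j = 0
      · rw [hj, mul_zero]
      · have h1 := hr j hj
        change |d j| < N at h1
        rw [abs_lt] at h1
        have h2 := abs_le.mp (hT.bd i)
        simp only [cmp, of_apply]
        rw [if_neg (by omega), zero_mul]
    obtain ⟨x', hx', hxx⟩ := ex_pair hT (pr_mem (fun j => d j = -c) (A *ᵥ x)) hne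
    -- `R' ≤ R''`
    have hsub : RR ψ ε d N a c ≤ RR ψ ε d N a (-c) := by
      intro ρ hρ
      have h1 := hT.brk _ hBa _ (hρ.2 x hx)
      rw [LL_comm ε (hT.iso _ hBa), hBr ρ hρ.1] at h1
      have h0 : LL ψ ε x 0 = 0 := by
        unfold LL
        rw [mulVec_zero, vecMulVec_zero, zero_vecMulVec, smul_zero, sub_zero]
      rw [h0, add_zero, hBx] at h1
      have h2 : inn d N (LL ψ ε (pr K (fun j => d j = -c) (A *ᵥ x)) ρ *ᵥ x') ∈
          RR ψ ε d N a (-c) := ⟨inn_mem _, fun y hy => hm _ h1 y x' hy hx'⟩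
      rw [LL_mulVec, (o_top_inn hT hc hx' hρ.1).1, zero_smul, zero_sub] at h2
      have h3 : inn d N (-((ε * bl ψ x' (pr K (fun j => d j = -c) (A *ᵥ x))) • ρ)) =
          -((ε * bl ψ x' (pr K (fun j => d j = -c) (A *ᵥ x))) • ρ) :=
        inn_self (Submodule.neg_mem _ (Submodule.smul_mem _ _ hρ.1))
      rw [h3, Submodule.neg_mem_iff] at h2
      exact (Submodule.smul_mem_iff _ (mul_ne_zero hε0 hxx)).mp h2
    have hall : ∀ r ∈ SS K (fun j => |d j| < N), r ∈ RR ψ ε d N a (-c) := by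
      intro r hr
      have := step2 hT hc hp hm hr
      rwa [sup_eq_right.mpr hsub] at this
    have hs : (Pi.single j1 1 : Fin n → K) ∈ SS K (fun j => |d j| < N) := single_mem _ hj1
    obtain ⟨r, hr, hr0⟩ := ex_pair_inn hT hs (single_ne j1)
    exact hr0 (hcon r (hall r hr) _ (hall _ hs))
  -- the stable subspace
  let U : Submodule K (Fin n → K) :=
    { carrier := {v | pr K (fun j => d j = -c) v = 0 ∧
        ∀ r ∈ RR ψ ε d N a (-c), bl ψ (inn d N v) r = 0}
      zero_mem' := by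
        refine ⟨map_zero _, fun r _ => ?_⟩
        rw [inn_eq, map_zero, bl_zero_left]
      add_mem' := by
        rintro u v ⟨hu1, hu2⟩ ⟨hv1, hv2⟩
        refine ⟨by rw [map_add, hu1, hv1, add_zero], fun r hr => ?_⟩
        rw [inn_add, bl_add_left, hu2 r hr, hv2 r hr, add_zero]
      smul_mem' := by
        rintro t u ⟨hu1, hu2⟩
        refine ⟨by rw [map_smul, hu1, smul_zero], fun r hr => ?_⟩
        rw [inn_smul, bl_smul_left, hu2 r hr, mul_zero] }
  have hinnm : ∀ A ∈ a, ∀ x ∈ SS K (fun j => d j = c), inn d N (A *ᵥ x) ∈ RR ψ ε d N a (-c) :=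
    fun A hA x hx => ⟨inn_mem _, fun y hy => hm A hA y x hy hx⟩
  have hst : ∀ A ∈ a, ∀ v ∈ U, A *ᵥ v ∈ U := by
    intro A hA v hv
    obtain ⟨hv1, hv2⟩ := hv
    have ev : v = pr K (fun j => d j = c) v + inn d N v := by
      conv_lhs => rw [dec hT hc v]
      rw [hv1, add_zero]
    set p := pr K (fun j => d j = c) v with hpd
    set r := inn d N v with hrd
    have hpm : p ∈ SS K (fun j => d j = c) := pr_mem _ v
    have hrm : r ∈ SS K (fun j => |d j| < N) := inn_mem v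
    have eA : A *ᵥ v = A *ᵥ p + A *ᵥ r := by rw [ev, mulVec_add]
    have hrr : ∀ r'' ∈ RR ψ ε d N a (-c), bl ψ r'' r = 0 := by
      intro r'' hr''
      rw [bl_swap hT.symm, hv2 r'' hr'', mul_zero]
    -- `A r` has no part of degree `-c`
    have hAr : pr K (fun j => d j = -c) (A *ᵥ r) = 0 := by
      by_contra hne
      obtain ⟨x, hx, hxx⟩ := ex_pair hT (pr_mem (fun j => d j = -c) (A *ᵥ r)) hne
      apply hxx
      have h1 : bl ψ x (A *ᵥ r) = bl ψ x (pr K (fun j => d j = -c) (A *ᵥ r)) := by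
        conv_lhs => rw [dec hT hc (A *ᵥ r)]
        rw [bl_add_right, bl_add_right, o_top hT hc hx (pr_mem _ _),
          (o_top_inn hT hc hx (inn_mem _)).1]
        ring
      have h2 : bl ψ (A *ᵥ x) r = 0 := by
        conv_lhs => rw [dec hT hc (A *ᵥ x)]
        rw [hB A hA x hx, add_zero, bl_add_left, (o_top_inn hT hc (pr_mem _ _) hrm).1, zero_add]
        exact hrr _ (hinnm A hA x hx)
      rw [← h1]
      have h3 := bl_skew (hT.iso A hA) x r
      rw [h2] at h3
      exact neg_eq_zero.mp h3.symm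
    refine ⟨?_, ?_⟩
    · rw [eA, map_add, hB A hA p hpm, hAr, add_zero]
    · intro r'' hr''
      rw [eA, inn_add, bl_add_left, hcon _ (hinnm A hA p hpm) r'' hr'', zero_add]
      have h1 : bl ψ (A *ᵥ r) r'' = bl ψ (inn d N (A *ᵥ r)) r'' := by
        conv_lhs => rw [dec hT hc (A *ᵥ r)]
        rw [bl_add_left, bl_add_left, (o_top_inn hT hc (pr_mem _ _) hr''.1).1,
          (o_top_inn hT (c := -c) (by omega) (pr_mem _ _) hr''.1).1]
        ring
      have h2 : bl ψ r (A *ᵥ r'') = bl ψ r (inn d N (A *ᵥ r'')) := by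
        conv_lhs => rw [dec hT hc (A *ᵥ r'')]
        rw [bl_add_right, bl_add_right, (o_top_inn hT hc (pr_mem _ _) hrm).2,
          (o_top_inn hT (c := -c) (by omega) (pr_mem _ _) hrm).2]
        ring
      rw [← h1, bl_skew (hT.iso A hA), h2, hv2 _ (step1 hT (by omega) hm' hr'' hA), neg_zero]
  rcases hT.irr U hst with h | h
  · obtain ⟨x, hx, hx0⟩ := ne_top hT hc
    apply hx0
    have : x ∈ U := by
      refine ⟨pr_zero _ _ ?_ hx, fun r _ => ?_⟩
      · intro j hj hj2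
        have := hT.pos
        omega
      · rw [inn_top hT hc hx, bl_zero_left]
    rw [h] at this
    exact (Submodule.mem_bot K).mp this
  · obtain ⟨y, hy, hy0⟩ := ne_top hT (c := -c) (by omega)
    apply hy0
    have : y ∈ U := by rw [h]; exact Submodule.mem_top
    have h1 := this.1
    rwa [pr_self _ hy] at h1

/-- (4) -/
theorem step4 [CharZero K] (hT : TopD ε ψ d N a) {c : ℤ} (hc : c = N ∨ c = -N)
    (hiso : ∃ r ∈ RR ψ ε d N a c, ∃ r' ∈ RR ψ ε d N a c, bl ψ r r' ≠ 0) :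
    RR ψ ε d N a (-c) ≤ RR ψ ε d N a c := by
  intro ρ hρ
  refine ⟨hρ.1, fun x' hx' => ?_⟩
  have hL : ∀ x ∈ SS K (fun j => d j = c), ∀ x' ∈ SS K (fun j => d j = c), LL ψ ε x' x ∈ a := by
    refine Gen9.core hT.sign hT.symm hT.brk (SS K (fun j => d j = c)) (RR ψ ε d N a c) ?_ ?_ ?_ ?_
    · intro x hx r hr
      exact (o_top_inn hT hc hx hr.1).1
    · intro x hx r hr
      exact (o_top_inn hT hc hx hr.1).2
    · intro x hx r hr
      exact hr.2 x hx
    · obtain ⟨r, hr, r', hr', h⟩ := hiso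
      exact ⟨r', hr', r, hr, h⟩
  obtain ⟨y, hy, hy0, hyx⟩ := ex_orth hT hc x'
  obtain ⟨x, hx, hxy⟩ := ex_pair hT hy hy0
  have hyx2 : bl ψ y x ≠ 0 := by
    rw [bl_swap hT.symm]
    refine mul_ne_zero ?_ hxy
    rcases hT.sign with h | h <;> rw [h]
    · exact one_ne_zero
    · exact neg_ne_zero.mpr one_ne_zero
  have h1 := hT.brk _ (hL x hx x' hx') _ (hρ.2 y hy)
  rw [LL_comm ε (hT.iso _ (hL x hx x' hx')), LL_mulVec, LL_mulVec, hyx, mul_zero, zero_smul,
    sub_zero, (o_top_inn hT hc hx hρ.1).2, (o_top_inn hT hc hx' hρ.1).2, mul_zero, zero_smul,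
    zero_smul, sub_zero] at h1
  have h0 : LL ψ ε y 0 = 0 := by
    unfold LL
    rw [mulVec_zero, vecMulVec_zero, zero_vecMulVec, smul_zero, sub_zero]
  have h2 : LL ψ ε (bl ψ y x • x') ρ = bl ψ y x • LL ψ ε x' ρ := by
    unfold LL
    rw [mulVec_smul, vecMulVec_smul, smul_vecMulVec, smul_sub, smul_comm]
  rw [h0, add_zero, h2] at h1
  exact (Submodule.smul_mem_iff a hyx2).mp h1

end top

end End9

open End9 in
/-- END -/
theorem st_END (gen : ST_GEN) : ST_END := by
  intro K _ _ n ε ψ d N a hT hp0 hm0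
  have hp : ∀ A ∈ a, ∀ x y : Fin n → K, x ∈ SS K (fun j => d j = N) →
      y ∈ SS K (fun j => d j = -N) → LL ψ ε x (inn d N (A *ᵥ y)) ∈ a :=
    fun A hA x y hx hy => hp0 A hA x y hx hy
  have hm : ∀ A ∈ a, ∀ x y : Fin n → K, x ∈ SS K (fun j => d j = -N) →
      y ∈ SS K (fun j => d j = N) → LL ψ ε x (inn d N (A *ᵥ y)) ∈ a :=
    fun A hA x y hx hy => hm0 A hA x y hx hy
  have hm' : ∀ A ∈ a, ∀ x y : Fin n → K, x ∈ SS K (fun j => d j = -N) →
      y ∈ SS K (fun j => d j = -(-N)) → LL ψ ε x (inn d N (A *ᵥ y)) ∈ a := by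
    rw [neg_neg]; exact hm
  have hp' : ∀ A ∈ a, ∀ x y : Fin n → K, x ∈ SS K (fun j => d j = -(-N)) →
      y ∈ SS K (fun j => d j = -N) → LL ψ ε x (inn d N (A *ᵥ y)) ∈ a := by
    rw [neg_neg]; exact hp
  have i1 := step3 hT (Or.inl rfl) hp hm
  have i2 := step3 hT (Or.inr rfl) hm' hp'
  rw [neg_neg] at i2
  have s1 : RR ψ ε d N a (-N) ≤ RR ψ ε d N a N := step4 hT (Or.inl rfl) i2
  have s2 : RR ψ ε d N a N ≤ RR ψ ε d N a (-N) := by
    have := step4 hT (Or.inr rfl) i1
    rwa [neg_neg] at this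
  have hR : ∀ r ∈ SS K (fun j => |d j| < N), r ∈ RR ψ ε d N a N ∧ r ∈ RR ψ ε d N a (-N) := by
    intro r hr
    have h1 := step2 hT (Or.inl rfl) hp hm hr
    rw [sup_eq_left.mpr s1] at h1
    exact ⟨h1, s2 h1⟩
  refine gen K n ε ψ d N a hT ?_
  intro x ρ hx hρ
  obtain ⟨h1, h2⟩ := hR ρ hρ
  have hdec := dec hT (Or.inl rfl) x
  have h0 : inn d N x = 0 := by
    rw [inn_eq]
    refine pr_zero (fun j => |d j| < N) (fun j => d j = N ∨ d j = -N) ?_ hx
    intro j hj hj2
    have := hT.pos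
    rw [abs_lt] at hj2
    omega
  rw [h0, add_zero] at hdec
  rw [hdec, Gen9.LL_add_left]
  exact a.add_mem (h1.2 _ (pr_mem _ x)) (h2.2 _ (pr_mem _ x))

end MT
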