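import Pool.Agent.Helper21.MT9.Stmts

/-!
# T9, TPI: the top piece of an irreducible graded representation is irreducible
-/

set_option autoImplicit false

namespace MT

namespace Tpi

variable {K : Type} [Field K] {n : ℕ}

theorem cmp_iff (d : Fin n → ℤ) (x : ℤ) (A : Matrix (Fin n) (Fin n) K) :
    cmp d x A = A ↔ ∀ i j, A i j ≠ 0 → d i - d j = x := by
  constructor
  · intro h i j hij
    by_contra hc
    have h1 := congrFun (congrFun h i) j
    simp only [cmp, Matrix.of_apply] at h1
    rw [if_neg hc] at h1
    exact hij h1.symm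
  · intro h
    ext i j
    simp only [cmp, Matrix.of_apply]
    by_cases hc : d i - d j = x
    · rw [if_pos hc]
    · rw [if_neg hc]
      by_contra h0
      exact hc (h i j (Ne.symm h0))

theorem cmp_cmp (d : Fin n → ℤ) (x : ℤ) (A : Matrix (Fin n) (Fin n) K) :
    cmp d x (cmp d x A) = cmp d x A := by
  ext i j
  simp only [cmp, Matrix.of_apply]
  split_ifs <;> rfl

theorem hom_mul {d : Fin n → ℤ} {x y : ℤ} {A B : Matrix (Fin n) (Fin n) K}
    (hA : ∀ i j, A i j ≠ 0 → d i - d j = x) (hB : ∀ i j, B i j ≠ 0 → d i - d j = y) :
    ∀ i j, (A * B) i j ≠ 0 → d i - d j = x + y := by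
  intro i j hij
  rw [Matrix.mul_apply] at hij
  obtain ⟨k, -, hk⟩ := Finset.exists_ne_zero_of_sum_ne_zero hij
  have h1 := hA i k (left_ne_zero_of_mul hk)
  have h2 := hB k j (right_ne_zero_of_mul hk)
  omega

theorem hom_comm {d : Fin n → ℤ} {x y : ℤ} {A B : Matrix (Fin n) (Fin n) K}
    (hA : cmp d x A = A) (hB : cmp d y B = B) : cmp d (x + y) (A * B - B * A) = A * B - B * A := by
  rw [cmp_iff] at *
  intro i j hij
  rw [Matrix.sub_apply] at hij
  by_cases h1 : (A * B) i j = 0
  · have h2 : (B * A) i j ≠ 0 := by
      intro h2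
      rw [h1, h2, sub_zero] at hij
      exact hij rfl
    have := hom_mul hB hA i j h2
    omega
  · exact hom_mul hA hB i j h1

open Classical in
theorem sum_cmp (d : Fin n → ℤ) (A : Matrix (Fin n) (Fin n) K) :
    A = ∑ x ∈ Finset.univ.image (fun p : Fin n × Fin n => d p.1 - d p.2), cmp d x A := by
  ext i j
  rw [Matrix.sum_apply]
  simp only [cmp, Matrix.of_apply]
  rw [Finset.sum_ite_eq, if_pos]
  exact Finset.mem_image.mpr ⟨(i, j), Finset.mem_univ _, rfl⟩

/-- words of elements of negative degree applied to the elements of `U` -/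
inductive Wd (a : Submodule K (Matrix (Fin n) (Fin n) K)) (d : Fin n → ℤ)
    (U : Submodule K (Fin n → K)) : (Fin n → K) → Prop
  | base (u : Fin n → K) : u ∈ U → Wd a d U u
  | step (A : Matrix (Fin n) (Fin n) K) (x : ℤ) (v : Fin n → K) : A ∈ a → cmp d x A = A → x < 0 →
      Wd a d U v → Wd a d U (A.mulVec v)

end Tpi

open Tpi in
/-- TPI -/
theorem st_TPI : ST_TPI := by
  intro K _ n a d N hB hI hC hN U hU hU0
  classical
  set M : Submodule K (Fin n → K) := Submodule.span K {v | Wd a d U v} with hM
  have hUM : U ≤ M := fun u hu => Submodule.subset_span (Wd.base u hu)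
  -- elements of negative degree
  have hneg : ∀ A ∈ a, ∀ x : ℤ, cmp d x A = A → x < 0 → ∀ v ∈ M, A.mulVec v ∈ M := by
    intro A hA x hx hx0 v hv
    induction hv using Submodule.span_induction with
    | mem v hv => exact Submodule.subset_span (Wd.step A x v hA hx hx0 hv)
    | zero => rw [Matrix.mulVec_zero]; exact Submodule.zero_mem _
    | add v w _ _ h1 h2 => rw [Matrix.mulVec_add]; exact Submodule.add_mem _ h1 h2
    | smul c v _ h1 => rw [Matrix.mulVec_smul]; exact Submodule.smul_mem _ c h1
  -- elements of non-negative degree, on words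
  have hpos : ∀ v : Fin n → K, Wd a d U v → ∀ B ∈ a, ∀ y : ℤ, cmp d y B = B → 0 ≤ y →
      B.mulVec v ∈ M := by
    intro v hv
    induction hv with
    | base u hu =>
      intro B hBa y hy hy0
      by_cases h0 : y = 0
      · subst h0
        exact hUM (hU0 B hBa hy u hu)
      · have : B.mulVec u = 0 := by
          ext i
          simp only [Matrix.mulVec, dotProduct, Pi.zero_apply]
          refine Finset.sum_eq_zero fun j _ => ?_
          by_contra hc
          have h1 := (cmp_iff d y B).mp hy i j (left_ne_zero_of_mul hc)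
          have h2 := hU u hu j (right_ne_zero_of_mul hc)
          have h3 := hN i
          omega
        rw [this]
        exact Submodule.zero_mem _
    | step A x v hAa hx hx0 _ ih =>
      intro B hBa y hy hy0
      have e : B.mulVec (A.mulVec v) = A.mulVec (B.mulVec v) + (B * A - A * B).mulVec v := by
        rw [Matrix.sub_mulVec, Matrix.mulVec_mulVec, Matrix.mulVec_mulVec]
        abel
      rw [e]
      refine Submodule.add_mem _ (hneg A hAa x hx hx0 _ (ih B hBa y hy hy0)) ?_
      have hc := hom_comm hy hx
      have hca := hB B hBa A hAa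
      by_cases h0 : 0 ≤ y + x
      · exact ih _ hca (y + x) hc h0
      · exact hneg _ hca (y + x) hc (by omega) v (Submodule.subset_span ‹Wd a d U v›)
  have hposM : ∀ B ∈ a, ∀ y : ℤ, cmp d y B = B → 0 ≤ y → ∀ v ∈ M, B.mulVec v ∈ M := by
    intro B hBa y hy hy0 v hv
    induction hv using Submodule.span_induction with
    | mem v hv => exact hpos v hv B hBa y hy hy0
    | zero => rw [Matrix.mulVec_zero]; exact Submodule.zero_mem _
    | add v w _ _ h1 h2 => rw [Matrix.mulVec_add]; exact Submodule.add_mem _ h1 h2
    | smul c v _ h1 => rw [Matrix.mulVec_smul]; exact Submodule.smul_mem _ c h1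
  have hst : ∀ A ∈ a, ∀ v ∈ M, A.mulVec v ∈ M := by
    intro A hA v hv
    rw [sum_cmp d A, Matrix.sum_mulVec]
    refine Submodule.sum_mem _ fun x _ => ?_
    by_cases hx : x < 0
    · exact hneg _ (hC A hA x) x (cmp_cmp d x A) hx v hv
    · exact hposM _ (hC A hA x) x (cmp_cmp d x A) (by omega) v hv
  -- the part in the top piece
  let π : (Fin n → K) →ₗ[K] (Fin n → K) :=
    { toFun := fun v j => if d j = N then v j else 0
      map_add' := by
        intro v w
        ext j
        by_cases h : d j = N <;> simp [h]
      map_smul' := by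
        intro c v
        ext j
        by_cases h : d j = N <;> simp [h] }
  have hπ : ∀ v : Fin n → K, (∀ j, v j ≠ 0 → d j = N) → π v = v := by
    intro v hv
    ext j
    change (if d j = N then v j else 0) = v j
    by_cases h : d j = N
    · rw [if_pos h]
    · rw [if_neg h]
      by_contra h0
      exact h (hv j (Ne.symm h0))
  have hMU : M ≤ U.comap π := by
    rw [hM, Submodule.span_le]
    intro v hv
    cases hv with
    | base u hu =>
      change π v ∈ U
      rw [hπ v (hU v hu)]
      exact hu
    | step A x w hAa hx hx0 hw =>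
      change π (A.mulVec w) ∈ U
      have : π (A.mulVec w) = 0 := by
        ext i
        change (if d i = N then A.mulVec w i else 0) = 0
        by_cases h : d i = N
        · rw [if_pos h]
          simp only [Matrix.mulVec, dotProduct]
          refine Finset.sum_eq_zero fun j _ => ?_
          by_contra hc
          have h1 := (cmp_iff d x A).mp hx i j (left_ne_zero_of_mul hc)
          have h3 := hN j
          omega
        · rw [if_neg h]
      rw [this]
      exact Submodule.zero_mem _
  rcases hI M hst with h | h
  · left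
    rw [h] at hUM
    exact le_bot_iff.mp hUM
  · right
    intro v hv
    have h1 : v ∈ M := by rw [h]; exact Submodule.mem_top
    have h2 : π v ∈ U := hMU h1
    rwa [hπ v hv] at h2

end MT
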